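import Pool.Agent.Q170.WD.St

/-!
# Project WD: job HYPDEG
-/

set_option autoImplicit false

namespace Pool.Agent.Q13.WD

open MvPolynomial Pool.Agent.Q170.WD

lemma choose_step (d s : ℕ) : ∀ e : ℕ,
    (s + (d + 1)).choose (d + 1) + e * (s + d).choose d ≤ (s + e + (d + 1)).choose (d + 1) := by
  intro e
  induction e with
  | zero => simp
  | succ e ih =>
    have h1 : (s + (e + 1) + (d + 1)).choose (d + 1) =
        (s + e + (d + 1)).choose d + (s + e + (d + 1)).choose (d + 1) := by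
      rw [show s + (e + 1) + (d + 1) = (s + e + (d + 1)) + 1 by ring, Nat.choose_succ_succ]
    have h2 : (s + d).choose d ≤ (s + e + (d + 1)).choose d :=
      Nat.choose_le_choose d (by omega)
    rw [h1, add_mul, one_mul]
    omega

lemma pow_le (d s : ℕ) : s ^ d ≤ d.factorial * (s + d).choose d := by
  rw [← Nat.ascFactorial_eq_factorial_mul_choose]
  exact (Nat.pow_le_pow_left (Nat.le_succ s) d).trans (Nat.pow_succ_le_ascFactorial (s + 1) d)

theorem t_HYPDEG (hTOP : S_TOP) : S_HYPDEG := by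
  intro L _ d δ F hF hD
  by_contra hlt
  rw [not_le] at hlt
  set e := F.totalDegree with he
  obtain ⟨t, ht, hle⟩ := hD (1 / 2) (by norm_num) (2 * (δ + 1) * d * e + e + 1)
  have het : e ≤ t := by
    have : e ≤ 2 * (δ + 1) * d * e + e + 1 := by
      have := Nat.zero_le (2 * (δ + 1) * d * e)
      omega
    exact this.trans ht
  have htop := hTOP.2 L (d + 1) t F hF het
  rw [← he] at htop
  have hstep := choose_step d (t - e) e
  rw [show t - e + e + (d + 1) = t + (d + 1) by omega] at hstep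
  have h1 : e * (t - e + d).choose d ≤ hilb (Ideal.span {F}) t := by omega
  have h2 : e * (t - e) ^ d ≤ hilb (Ideal.span {F}) t * d.factorial := by
    calc e * (t - e) ^ d ≤ e * (d.factorial * (t - e + d).choose d) :=
          Nat.mul_le_mul_left _ (pow_le d (t - e))
      _ = e * (t - e + d).choose d * d.factorial := by ring
      _ ≤ _ := Nat.mul_le_mul_right _ h1
  have h3 : ((δ : ℝ) + 1) * ((t : ℝ) - e) ^ d ≤ ((δ : ℝ) + 1 / 2) * (t : ℝ) ^ d := by
    have h4 : ((e * (t - e) ^ d : ℕ) : ℝ) ≤ ((hilb (Ideal.span {F}) t * d.factorial : ℕ) : ℝ) := by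
      exact_mod_cast h2
    have h5 : ((t - e : ℕ) : ℝ) = (t : ℝ) - e := Nat.cast_sub het
    rw [Nat.cast_mul, Nat.cast_pow, h5, Nat.cast_mul] at h4
    have h6 : ((δ : ℝ) + 1) ≤ (e : ℝ) := by exact_mod_cast hlt
    have h7 : 0 ≤ ((t : ℝ) - e) ^ d := by
      rw [← h5]; positivity
    calc ((δ : ℝ) + 1) * ((t : ℝ) - e) ^ d ≤ (e : ℝ) * ((t : ℝ) - e) ^ d :=
          mul_le_mul_of_nonneg_right h6 h7
      _ ≤ _ := h4.trans hle
  have ht0 : 2 * (δ + 1) * d * e + 1 ≤ t := by omega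
  have htpos : (0 : ℝ) < t := by
    have : 0 < t := by omega
    exact_mod_cast this
  have hte : (e : ℝ) ≤ t := by exact_mod_cast het
  have hB := one_add_mul_le_pow (a := -((e : ℝ) / t)) (by
    have : (e : ℝ) / t ≤ 1 := (div_le_one htpos).2 hte
    linarith) d
  have h8 : ((t : ℝ) - e) ^ d = (1 + -((e : ℝ) / t)) ^ d * (t : ℝ) ^ d := by
    rw [← mul_pow]
    congr 1
    field_simp
    ring
  rw [h8, ← mul_assoc] at h3
  have h9 : ((δ : ℝ) + 1) * (1 + -((e : ℝ) / t)) ^ d ≤ (δ : ℝ) + 1 / 2 :=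
    le_of_mul_le_mul_right h3 (by positivity)
  have h10 : ((δ : ℝ) + 1) * (1 + d * -((e : ℝ) / t)) ≤ (δ : ℝ) + 1 / 2 :=
    (mul_le_mul_of_nonneg_left hB (by positivity)).trans h9
  have h11 : (t : ℝ) ≤ 2 * (δ + 1) * d * e := by
    have h12 : ((δ : ℝ) + 1) * (1 + d * -((e : ℝ) / t)) * t =
        (δ + 1) * t - (δ + 1) * d * e := by
      field_simp
      ring
    have h13 := mul_le_mul_of_nonneg_right h10 htpos.le
    rw [h12] at h13
    nlinarith [h13]
  have h14 : ((2 * (δ + 1) * d * e + 1 : ℕ) : ℝ) ≤ t := by exact_mod_cast ht0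
  push_cast at h14
  linarith

end Pool.Agent.Q13.WD
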